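import Pool.Agent.Q332.TM.Deg2

/-! # Integrals of the kernel of a graph -/

set_option autoImplicit false

namespace Pool.Agent.Q332.TM

open MeasureTheory Filter Topology Finset

open Classical in
/-- the number of ordered adjacent pairs -/
noncomputable def adjc {n : ℕ} (G : SimpleGraph (Fin n)) : ℕ :=
  (univ.filter fun x : Fin n × Fin n => G.Adj x.1 x.2).card

theorem cell_meas (n : ℕ) (i : Fin n) : MeasurableSet (cell n i) := measurableSet_Ioc

theorem cell_vol (n : ℕ) (i j : Fin n) :
    (volume : Measure (ℝ × ℝ)) (cell n i ×ˢ cell n j) = ENNReal.ofReal (1 / n * (1 / n)) := by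
  have h : ∀ i : Fin n, volume (cell n i) = ENNReal.ofReal (1 / n) := by
    intro i
    unfold cell
    rw [Real.volume_Ioc]
    congr 1
    ring
  rw [Measure.volume_eq_prod, Measure.prod_prod, h, h, ← ENNReal.ofReal_mul (by positivity)]

theorem term_integrable {n : ℕ} (i j : Fin n) (c : ℝ) (A : Set (ℝ × ℝ)) :
    Integrable ((cell n i ×ˢ cell n j).indicator (fun _ => c)) (volume.restrict A) := by
  rw [integrable_indicator_iff ((cell_meas n i).prod (cell_meas n j))]
  refine integrableOn_const ?_ (by simp)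
  have h : (volume.restrict A) (cell n i ×ˢ cell n j) ≤ volume (cell n i ×ˢ cell n j) :=
    Measure.restrict_apply_le _ _
  rw [cell_vol] at h
  exact (h.trans_lt ENNReal.ofReal_lt_top).ne

open Classical in
theorem ker_integrable {n : ℕ} (G : SimpleGraph (Fin n)) (p : ℝ) (A : Set (ℝ × ℝ)) :
    Integrable (ker G p) (volume.restrict A) := by
  unfold ker
  refine integrable_finset_sum _ fun i _ => integrable_finset_sum _ fun j _ => ?_
  by_cases h : G.Adj i j
  · simp only [h, if_true]
    exact term_integrable i j _ A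
  · simp only [h, if_false]
    exact integrable_zero _ _ _

open Classical in
theorem int_ker_le {n : ℕ} (G : SimpleGraph (Fin n)) {p : ℝ} (hp : 0 < p) (A : Set (ℝ × ℝ)) :
    ∫ z in A, ker G p z ≤ adjc G * (1 / p * (1 / n * (1 / n))) := by
  have h1 : ∫ z in A, ker G p z = ∑ i : Fin n, ∑ j : Fin n,
      if G.Adj i j then ∫ z in A, (cell n i ×ˢ cell n j).indicator (fun _ => 1 / p) z else 0 := by
    unfold ker
    rw [integral_finset_sum]
    · refine sum_congr rfl fun i _ => ?_
      rw [integral_finset_sum]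
      · refine sum_congr rfl fun j _ => ?_
        by_cases h : G.Adj i j
        · simp only [h, if_true]
        · simp only [h, if_false, integral_zero]
      · intro j _
        by_cases h : G.Adj i j
        · simp only [h, if_true]
          exact term_integrable i j _ A
        · simp only [h, if_false]
          exact integrable_zero _ _ _
    · intro i _
      refine integrable_finset_sum _ fun j _ => ?_
      by_cases h : G.Adj i j
      · simp only [h, if_true]
        exact term_integrable i j _ A
      · simp only [h, if_false]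
        exact integrable_zero _ _ _
  have h2 : ∀ i j : Fin n, (if G.Adj i j then
      ∫ z in A, (cell n i ×ˢ cell n j).indicator (fun _ => 1 / p) z else 0) ≤
      if G.Adj i j then 1 / p * (1 / n * (1 / n)) else 0 := by
    intro i j
    by_cases h : G.Adj i j
    · simp only [h, if_true]
      rw [integral_indicator_const _ ((cell_meas n i).prod (cell_meas n j)), smul_eq_mul, mul_comm]
      refine mul_le_mul_of_nonneg_left ?_ (by positivity)
      unfold Measure.real
      have h : (volume.restrict A) (cell n i ×ˢ cell n j) ≤ ENNReal.ofReal (1 / n * (1 / n)) := by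
        rw [← cell_vol]
        exact Measure.restrict_apply_le _ _
      exact ENNReal.toReal_le_of_le_ofReal (by positivity) h
    · simp only [h, if_false, le_refl]
  rw [h1]
  refine (sum_le_sum fun i _ => sum_le_sum fun j _ => h2 i j).trans (le_of_eq ?_)
  rw [← sum_product' (f := fun i j => if G.Adj i j then 1 / p * (1 / (n : ℝ) * (1 / n)) else 0)]
  rw [← sum_filter, sum_const, nsmul_eq_mul, univ_product_univ]
  rfl

open Classical in
theorem int_ker_nonneg {n : ℕ} (G : SimpleGraph (Fin n)) {p : ℝ} (hp : 0 < p) (A : Set (ℝ × ℝ)) :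
    0 ≤ ∫ z in A, ker G p z := by
  refine integral_nonneg fun z => ?_
  unfold ker
  refine sum_nonneg fun i _ => sum_nonneg fun j _ => ?_
  split_ifs
  · exact Set.indicator_nonneg (fun _ _ => by positivity) z
  · exact le_refl 0

theorem adjc_gad (n : ℕ) : adjc (gad n) ≤ 4 * (tt n + 3) := by
  classical
  unfold adjc
  have h : (univ.filter fun x : Fin n × Fin n => (gad n).Adj x.1 x.2) ⊆
      ((univ.filter fun u : Fin n => (u : ℕ) < 2) ×ˢ (univ.filter fun u : Fin n => (u : ℕ) < tt n + 3)) ∪
      ((univ.filter fun u : Fin n => (u : ℕ) < tt n + 3) ×ˢ (univ.filter fun u : Fin n => (u : ℕ) < 2)) := by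
    intro x hx
    rw [mem_filter] at hx
    have := gad_adj hx.2
    simp only [mem_union, mem_product, mem_filter, mem_univ, true_and]
    omega
  refine (card_le_card h).trans ((card_union_le _ _).trans ?_)
  rw [card_product, card_product]
  have h1 := card_small n 2
  have h2 := card_small n (tt n + 3)
  nlinarith

theorem cut_gad : CutLimit gad pp (fun _ => 0) := by
  intro ε hε
  have hev : ∀ᶠ n : ℕ in atTop, 1 ≤ n ∧ 16 / ε < (tt n : ℝ) := by
    refine (eventually_ge_atTop 1).and ?_
    have := (tendsto_natCast_atTop_atTop (R := ℝ)).comp tt_tendsto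
    exact this.eventually_gt_atTop _
  filter_upwards [hev] with n hn
  refine ⟨id, Set.bijOn_id _, MeasurePreserving.id _, fun S T _ _ _ _ => ?_⟩
  simp only [sub_zero]
  rw [abs_of_nonneg (int_ker_nonneg _ (pp_pos n) _)]
  refine (int_ker_le _ (pp_pos n) _).trans ?_
  have ht1 : (1 : ℝ) ≤ t1 n := by exact_mod_cast one_le_t1 n
  have h1 : (adjc (gad n) : ℝ) ≤ 16 * t1 n := by
    have h2 : tt n + 3 ≤ 4 * t1 n := by
      have := tt_le_t1 n
      have := one_le_t1 n
      omega
    have : adjc (gad n) ≤ 16 * t1 n := (adjc_gad n).trans (by omega)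
    exact_mod_cast this
  have hn4 : ((t1 n : ℝ)) ^ 4 ≤ n := by exact_mod_cast t1_pow hn.1
  have e1 : 1 / pp n = (t1 n : ℝ) ^ 3 := by
    unfold pp
    rw [one_div, inv_inv]
  have h3 : (1 / (n : ℝ)) ≤ 1 / (t1 n : ℝ) ^ 4 :=
    one_div_le_one_div_of_le (by positivity) hn4
  have htt : (tt n : ℝ) ≤ t1 n := by exact_mod_cast tt_le_t1 n
  have h5 : 16 / ε < (t1 n : ℝ) := hn.2.trans_le htt
  rw [div_lt_iff₀ hε] at h5
  have h6 : (t1 n : ℝ) ≤ (t1 n : ℝ) ^ 4 := by
    calc (t1 n : ℝ) = (t1 n : ℝ) ^ 1 := (pow_one _).symm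
      _ ≤ (t1 n : ℝ) ^ 4 := pow_le_pow_right₀ ht1 (by norm_num)
  calc (adjc (gad n) : ℝ) * (1 / pp n * (1 / n * (1 / n)))
      ≤ (16 * t1 n) * ((t1 n : ℝ) ^ 3 * (1 / (t1 n : ℝ) ^ 4 * (1 / (t1 n : ℝ) ^ 4))) := by
        rw [e1]
        gcongr
    _ = 16 / (t1 n : ℝ) ^ 4 := by field_simp
    _ ≤ ε := by
        rw [div_le_iff₀ (by positivity)]
        nlinarith

end Pool.Agent.Q332.TM
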