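import Mathlib

/-!
# Embeddings, paths, theta graphs, cut limits: definitions

`G : (n : ℕ) → SimpleGraph (Fin n)` is a sequence of graphs, `p : ℕ → ℝ` the normalising function.
-/

set_option autoImplicit false

namespace Pool.Agent.Q332.TM

open MeasureTheory Filter Topology

/-- `emb(F, G)`: the number of injective homomorphisms from `F` to `G`. -/
noncomputable def emb {W V : Type} (F : SimpleGraph W) (G : SimpleGraph V) : ℕ :=
  Nat.card {f : W → V // Function.Injective f ∧ ∀ a b, F.Adj a b → G.Adj (f a) (f b)}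

/-- `s_p(F, G) = emb(F, G) / (n (n - 1) ⋯ (n - |F| + 1) p ^ e(F))`. -/
noncomputable def sp {W : Type} (F : SimpleGraph W) {n : ℕ} (G : SimpleGraph (Fin n)) (p : ℝ) : ℝ :=
  (emb F G : ℝ) / ((n.descFactorial (Nat.card W) : ℝ) * p ^ F.edgeSet.ncard)

/-- `p_t(u, v)`: the number of paths of length `t` from `u` to `v`, that is, of sequences of
distinct vertices `u = x_0, x_1, …, x_t = v` with `x_i`, `x_{i+1}` adjacent. -/
noncomputable def paths {V : Type} (G : SimpleGraph V) (t : ℕ) (u v : V) : ℕ :=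
  Nat.card {x : Fin (t + 1) → V // Function.Injective x ∧ x 0 = u ∧ x (Fin.last t) = v ∧
    ∀ i : Fin t, G.Adj (x i.castSucc) (x i.succ)}

/-- The edges of the theta graph: the end `inl false` is joined to the first inner vertex `(i, 0)`
of each path, `(i, j)` to `(i, j + 1)`, and `(i, ℓ - 2)` to the end `inl true`. -/
def thetaRel (k ℓ : ℕ) : Bool ⊕ (Fin k × Fin (ℓ - 1)) → Bool ⊕ (Fin k × Fin (ℓ - 1)) → Prop
  | .inl false, .inr y => (y.2 : ℕ) = 0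
  | .inr x, .inr y => x.1 = y.1 ∧ (y.2 : ℕ) = x.2 + 1
  | .inr x, .inl true => (x.2 : ℕ) + 2 = ℓ
  | _, _ => False

/-- The theta graph `H_{k,ℓ}`, `ℓ ≥ 2`: `k` paths of length `ℓ` with the same two ends and otherwise
disjoint. -/
def theta (k ℓ : ℕ) : SimpleGraph (Bool ⊕ (Fin k × Fin (ℓ - 1))) :=
  SimpleGraph.fromRel (thetaRel k ℓ)

/-- (A): `s_p(T, G_n)` is bounded for every finite tree `T`. -/
def CondA (G : (n : ℕ) → SimpleGraph (Fin n)) (p : ℕ → ℝ) : Prop :=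
  ∀ (m : ℕ) (T : SimpleGraph (Fin m)), T.IsTree → ∃ M : ℝ, ∀ n, sp T (G n) (p n) ≤ M

/-- (B): the sum of `p_{ℓ-1}(u, v)²` over `u ≠ v` is `O(n^(2ℓ-2) p^(2ℓ-2))`. -/
def CondB (G : (n : ℕ) → SimpleGraph (Fin n)) (p : ℕ → ℝ) (ℓ : ℕ) : Prop :=
  ∃ M : ℝ, ∀ n, (∑ u : Fin n, ∑ v ∈ Finset.univ.filter (fun v => v ≠ u),
    (paths (G n) (ℓ - 1) u v : ℝ) ^ 2) ≤ M * ((n : ℝ) ^ (2 * ℓ - 2) * p n ^ (2 * ℓ - 2))

/-- The interval of the vertex `i` of a graph with vertex set `Fin n`. -/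
def cell (n : ℕ) (i : Fin n) : Set ℝ := Set.Ioc ((i : ℝ) / n) (((i : ℝ) + 1) / n)

open Classical in
/-- The kernel of the graph `G`: its value is `1 / p` on the squares of the adjacent pairs, and `0`
elsewhere. -/
noncomputable def ker {n : ℕ} (G : SimpleGraph (Fin n)) (p : ℝ) (z : ℝ × ℝ) : ℝ :=
  ∑ i : Fin n, ∑ j : Fin n,
    if G.Adj i j then (cell n i ×ˢ cell n j).indicator (fun _ => 1 / p) z else 0

/-- Kernels with values in `[0, C]`. -/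
def IsKernel (C : ℝ) (κ : ℝ × ℝ → ℝ) : Prop :=
  Measurable κ ∧ ∀ x y, κ (x, y) = κ (y, x) ∧ 0 ≤ κ (x, y) ∧ κ (x, y) ≤ C

/-- `d_cut(G_n, κ) → 0`: for every `ε > 0` and all large `n` there is a measure-preserving bijection
`φ` of `[0, 1]` such that the integral of `κ_{G_n}(x, y) - κ(φ x, φ y)` over `S × T` is at most `ε` in
absolute value for all measurable `S, T ⊆ [0, 1]`. -/
def CutLimit (G : (n : ℕ) → SimpleGraph (Fin n)) (p : ℕ → ℝ) (κ : ℝ × ℝ → ℝ) : Prop :=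
  ∀ ε : ℝ, 0 < ε → ∀ᶠ n in atTop, ∃ φ : ℝ → ℝ, Set.BijOn φ (Set.Icc 0 1) (Set.Icc 0 1) ∧
    MeasurePreserving φ (volume.restrict (Set.Icc 0 1)) (volume.restrict (Set.Icc 0 1)) ∧
    ∀ S T : Set ℝ, MeasurableSet S → MeasurableSet T → S ⊆ Set.Icc 0 1 → T ⊆ Set.Icc 0 1 →
      |∫ z in S ×ˢ T, (ker (G n) (p n) z - κ (φ z.1, φ z.2))| ≤ ε

/-- (D): the sum of `p_ℓ(u, v) ^ k` over `u ≠ v` is `O(n^(2+k(ℓ-1)) p^(kℓ))`, for every `k ≥ 1`. -/
def CondD (G : (n : ℕ) → SimpleGraph (Fin n)) (p : ℕ → ℝ) (ℓ : ℕ) : Prop :=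
  ∀ k : ℕ, 1 ≤ k → ∃ M : ℝ, ∀ n, (∑ u : Fin n, ∑ v ∈ Finset.univ.filter (fun v => v ≠ u),
    (paths (G n) ℓ u v : ℝ) ^ k) ≤ M * ((n : ℝ) ^ (2 + k * (ℓ - 1)) * p n ^ (k * ℓ))

/-- `s_p(H_{k,ℓ}, G_n) = O(1)` for every `k ≥ 1`. -/
def CondH (G : (n : ℕ) → SimpleGraph (Fin n)) (p : ℕ → ℝ) (ℓ : ℕ) : Prop :=
  ∀ k : ℕ, 1 ≤ k → ∃ M : ℝ, ∀ n, sp (theta k ℓ) (G n) (p n) ≤ M

end Pool.Agent.Q332.TM
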