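import Pool.Agent.Q332.TM.Defs

/-! # The degenerate example -/

set_option autoImplicit false

namespace Pool.Agent.Q332.TM

open MeasureTheory Filter Topology Finset

/-- the size parameter -/
def tt (n : ℕ) : ℕ := Nat.sqrt (Nat.sqrt n)

/-- the natural number `max (tt n) 1` -/
def t1 (n : ℕ) : ℕ := max (tt n) 1

theorem tt_pow (n : ℕ) : tt n ^ 4 ≤ n := by
  have h1 : Nat.sqrt n ^ 2 ≤ n := Nat.sqrt_le' n
  have h2 : tt n ^ 2 ≤ Nat.sqrt n := Nat.sqrt_le' _
  calc tt n ^ 4 = (tt n ^ 2) ^ 2 := by ring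
    _ ≤ (Nat.sqrt n) ^ 2 := Nat.pow_le_pow_left h2 2
    _ ≤ n := h1

theorem lt_tt (n : ℕ) : n < (tt n + 1) ^ 4 := by
  have h1 : n < (Nat.sqrt n + 1) ^ 2 := by
    have := Nat.lt_succ_sqrt' n
    simpa using this
  have h2 : Nat.sqrt n < (tt n + 1) ^ 2 := by
    have := Nat.lt_succ_sqrt' (Nat.sqrt n)
    simpa [tt] using this
  calc n < (Nat.sqrt n + 1) ^ 2 := h1
    _ ≤ ((tt n + 1) ^ 2) ^ 2 := Nat.pow_le_pow_left h2 2
    _ = (tt n + 1) ^ 4 := by ring

theorem t1_pow {n : ℕ} (hn : 1 ≤ n) : t1 n ^ 4 ≤ n := by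
  unfold t1
  rcases le_total (tt n) 1 with h | h
  · rw [max_eq_right h]; simpa using hn
  · rw [max_eq_left h]; exact tt_pow n

theorem le_t1 (n : ℕ) : n ≤ 16 * t1 n ^ 4 := by
  have h := lt_tt n
  have h2 : tt n + 1 ≤ 2 * t1 n := by unfold t1; omega
  calc n ≤ (tt n + 1) ^ 4 := h.le
    _ ≤ (2 * t1 n) ^ 4 := Nat.pow_le_pow_left h2 4
    _ = 16 * t1 n ^ 4 := by ring

theorem one_le_t1 (n : ℕ) : 1 ≤ t1 n := le_max_right _ _

theorem tt_le_t1 (n : ℕ) : tt n ≤ t1 n := le_max_left _ _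

theorem tt_tendsto : Tendsto tt atTop atTop := by
  rw [tendsto_atTop]
  intro b
  filter_upwards [eventually_ge_atTop (b ^ 4)] with n hn
  unfold tt
  rw [Nat.le_sqrt', Nat.le_sqrt']
  calc (b ^ 2) ^ 2 = b ^ 4 := by ring
    _ ≤ n := hn

/-- the edge density `t ^ (-3)` -/
noncomputable def pp (n : ℕ) : ℝ := ((t1 n : ℝ) ^ 3)⁻¹

theorem pp_pos (n : ℕ) : 0 < pp n := by
  have : (0 : ℝ) < t1 n := by exact_mod_cast one_le_t1 n
  unfold pp; positivity

theorem pp_le (n : ℕ) : pp n ≤ 1 := by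
  have : (1 : ℝ) ≤ t1 n := by exact_mod_cast one_le_t1 n
  unfold pp
  exact inv_le_one_of_one_le₀ (one_le_pow₀ this)

/-- The graph: the vertices `0`, `1` are joined to `3, …, t + 2`, and `0` to `2`. -/
def gad (n : ℕ) : SimpleGraph (Fin n) :=
  SimpleGraph.fromRel fun u v => ((u : ℕ) = 0 ∧ (v : ℕ) = 2) ∨
    ((u : ℕ) ≤ 1 ∧ 3 ≤ (v : ℕ) ∧ (v : ℕ) < tt n + 3)

theorem gad_adj {n : ℕ} {u v : Fin n} (h : (gad n).Adj u v) :
    (((u : ℕ) ≤ 1 ∧ 2 ≤ (v : ℕ)) ∨ ((v : ℕ) ≤ 1 ∧ 2 ≤ (u : ℕ))) ∧ (u : ℕ) < tt n + 3 ∧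
      (v : ℕ) < tt n + 3 := by
  rw [gad, SimpleGraph.fromRel_adj] at h
  omega

theorem gad_adj_iff {n : ℕ} {u v : Fin n} (h : (gad n).Adj u v) : (u : ℕ) ≤ 1 ↔ ¬ (v : ℕ) ≤ 1 := by
  have := gad_adj h
  omega

/-- embeddings of graphs without isolated vertices -/
theorem emb_le {W : Type} [Fintype W] (F : SimpleGraph W) (hF : ∀ a, ∃ b, F.Adj a b) (n : ℕ) :
    emb F (gad n) ≤ (tt n + 3) ^ (Nat.card W) := by
  classical
  have h : emb F (gad n) ≤ Nat.card (W → Fin (tt n + 3)) := by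
    refine Nat.card_le_card_of_injective
      (fun f => fun w => (⟨(f.1 w : ℕ), ?_⟩ : Fin (tt n + 3))) ?_
    · obtain ⟨b, hb⟩ := hF w
      exact (gad_adj (f.2.2 w b hb)).2.1
    · intro f g hfg
      apply Subtype.ext
      funext w
      have := congrFun hfg w
      simp only [Fin.mk.injEq] at this
      exact Fin.ext this
  rw [Nat.card_fun] at h
  simpa using h

theorem desc_ge {n m : ℕ} (h : m ≤ n) : ((n : ℝ) / m) ^ m ≤ n.descFactorial m := by
  rcases Nat.eq_zero_or_pos m with rfl | hm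
  · simp
  have h1 : (n - m + 1) ^ m ≤ n.descFactorial m := by
    have := Nat.pow_sub_le_descFactorial n m
    rwa [Nat.succ_sub h] at this
  have h2 : (n : ℝ) / m ≤ ((n - m + 1 : ℕ) : ℝ) := by
    rw [div_le_iff₀ (by exact_mod_cast hm)]
    have h3 : n ≤ (n - m + 1) * m := by
      obtain ⟨d, rfl⟩ := Nat.exists_eq_add_of_le h
      have : m + d - m + 1 = d + 1 := by omega
      rw [this]
      nlinarith
    exact_mod_cast h3
  calc ((n : ℝ) / m) ^ m ≤ ((n - m + 1 : ℕ) : ℝ) ^ m := pow_le_pow_left₀ (by positivity) h2 m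
    _ ≤ n.descFactorial m := by exact_mod_cast h1

/-- the bound for `s_p` -/
theorem sp_le {W : Type} [Fintype W] (F : SimpleGraph W) (hF : ∀ a, ∃ b, F.Adj a b)
    (he : F.edgeSet.ncard + 1 ≤ Nat.card W) (n : ℕ) :
    sp F (gad n) (pp n) ≤ 4 ^ Nat.card W * (Nat.card W : ℝ) ^ Nat.card W := by
  set m := Nat.card W with hm
  have hm1 : 1 ≤ m := by omega
  have hpos : (0 : ℝ) ≤ 4 ^ m * (m : ℝ) ^ m := by positivity
  have ht : (1 : ℝ) ≤ t1 n := by exact_mod_cast one_le_t1 n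
  by_cases hmn : m ≤ n
  · unfold sp
    have h1 : (emb F (gad n) : ℝ) ≤ (4 * (t1 n : ℝ)) ^ m := by
      have := emb_le F hF n
      have h2 : tt n + 3 ≤ 4 * t1 n := by
        have := tt_le_t1 n
        have := one_le_t1 n
        omega
      have h3 : emb F (gad n) ≤ (4 * t1 n) ^ m := this.trans (Nat.pow_le_pow_left h2 m)
      exact_mod_cast h3
    have hn : ((t1 n : ℝ)) ^ 4 ≤ n := by exact_mod_cast t1_pow (hm1.trans hmn)
    have hd : ((t1 n : ℝ) ^ 4 / m) ^ m ≤ n.descFactorial m := by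
      refine le_trans ?_ (desc_ge hmn)
      refine pow_le_pow_left₀ (by positivity) ?_ m
      exact div_le_div_of_nonneg_right hn (by positivity)
    have hp : ((t1 n : ℝ) ^ (3 * (m - 1)))⁻¹ ≤ pp n ^ F.edgeSet.ncard := by
      have e1 : ((t1 n : ℝ) ^ (3 * (m - 1)))⁻¹ = pp n ^ (m - 1) := by
        rw [pp, inv_pow, ← pow_mul]
      rw [e1]
      exact pow_le_pow_of_le_one (pp_pos n).le (pp_le n) (by omega)
    have hmpos : (0 : ℝ) < m := by exact_mod_cast hm1
    have hden : (0 : ℝ) < ((t1 n : ℝ) ^ 4 / m) ^ m * ((t1 n : ℝ) ^ (3 * (m - 1)))⁻¹ := by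
      positivity
    have hden2 : ((t1 n : ℝ) ^ 4 / m) ^ m * ((t1 n : ℝ) ^ (3 * (m - 1)))⁻¹ ≤
        (n.descFactorial m : ℝ) * pp n ^ F.edgeSet.ncard :=
      mul_le_mul hd hp (by positivity) (by positivity)
    calc (emb F (gad n) : ℝ) / ((n.descFactorial m : ℝ) * pp n ^ F.edgeSet.ncard)
        ≤ (4 * (t1 n : ℝ)) ^ m / (((t1 n : ℝ) ^ 4 / m) ^ m * ((t1 n : ℝ) ^ (3 * (m - 1)))⁻¹) :=
          div_le_div₀ (by positivity) h1 hden hden2
      _ ≤ 4 ^ m * (m : ℝ) ^ m := by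
          rw [div_le_iff₀ hden]
          have e2 : 4 ^ m * (m : ℝ) ^ m *
              (((t1 n : ℝ) ^ 4 / m) ^ m * ((t1 n : ℝ) ^ (3 * (m - 1)))⁻¹) =
              4 ^ m * ((t1 n : ℝ) ^ (4 * m) / (t1 n : ℝ) ^ (3 * (m - 1))) := by
            rw [div_pow, ← pow_mul]
            field_simp
          rw [e2, mul_pow]
          refine mul_le_mul_of_nonneg_left ?_ (by positivity)
          rw [le_div_iff₀ (by positivity), ← pow_add]
          exact pow_le_pow_right₀ ht (by omega)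
  · have : n.descFactorial (Nat.card W) = 0 := Nat.descFactorial_of_lt (by omega)
    unfold sp
    rw [this]
    simpa using hpos

theorem tree_adj {m : ℕ} (hm : 2 ≤ m) (T : SimpleGraph (Fin m)) (hT : T.IsTree) (a : Fin m) :
    ∃ b, T.Adj a b := by
  haveI : Nontrivial (Fin m) := Fin.nontrivial_iff_two_le.2 hm
  exact hT.1.preconnected.exists_adj_of_nontrivial a

theorem condA_gad : CondA gad pp := by
  classical
  intro m T hT
  have he : T.edgeSet.ncard + 1 = Nat.card (Fin m) := by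
    have h := hT.card_edgeFinset
    rw [Nat.card_eq_fintype_card, ← h, ← SimpleGraph.coe_edgeFinset, Set.ncard_coe_finset]
  rcases Nat.lt_or_ge m 2 with h | h
  · haveI := hT.1.nonempty
    have hm : m = 1 := by
      have : 0 < m := Fin.pos_iff_nonempty.2 this
      omega
    subst hm
    refine ⟨1, fun n => ?_⟩
    have he0 : T.edgeSet.ncard = 0 := by
      simpa using he
    unfold sp
    rw [he0]
    have h1 : emb T (gad n) ≤ n := by
      have : emb T (gad n) ≤ Nat.card (Fin n) := by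
        refine Nat.card_le_card_of_injective (fun f => f.1 0) ?_
        intro f g hfg
        apply Subtype.ext
        funext w
        rw [Subsingleton.elim w 0]
        exact hfg
      simpa using this
    simp only [pow_zero, mul_one, Nat.card_eq_fintype_card, Fintype.card_fin, Nat.descFactorial_one]
    exact div_le_one_of_le₀ (by exact_mod_cast h1) (by positivity)
  · exact ⟨_, fun n => sp_le T (tree_adj h T hT) he.le n⟩

end Pool.Agent.Q332.TM
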