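import Pool.Agent.Q332.TM.Deg

/-! # The degenerate example: theta graphs, paths, cut norm -/

set_option autoImplicit false

namespace Pool.Agent.Q332.TM

open MeasureTheory Filter Topology Finset

theorem theta_adj_iff {k ℓ : ℕ} {x y : Bool ⊕ (Fin k × Fin (ℓ - 1))} :
    (theta k ℓ).Adj x y ↔ x ≠ y ∧ (thetaRel k ℓ x y ∨ thetaRel k ℓ y x) :=
  SimpleGraph.fromRel_adj _ _ _

instance (k ℓ : ℕ) (x y : Bool ⊕ (Fin k × Fin (ℓ - 1))) : Decidable (thetaRel k ℓ x y) := by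
  rcases x with (_ | _) | x <;> rcases y with (_ | _) | y <;> unfold thetaRel <;> infer_instance

instance (k ℓ : ℕ) : DecidableRel (theta k ℓ).Adj := fun x y =>
  decidable_of_iff _ (theta_adj_iff (k := k) (ℓ := ℓ) (x := x) (y := y)).symm

theorem theta_one_edges : (theta 1 3).edgeSet.ncard = 3 := by
  rw [← SimpleGraph.coe_edgeFinset, Set.ncard_coe_finset]
  decide

theorem theta_one_adj (a : Bool ⊕ (Fin 1 × Fin (3 - 1))) : ∃ b, (theta 1 3).Adj a b := by
  revert a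
  decide

theorem emb_theta_zero {k : ℕ} (hk : 2 ≤ k) (n : ℕ) : emb (theta k 3) (gad n) = 0 := by
  unfold emb
  rw [Nat.card_eq_zero]
  left
  refine ⟨fun ⟨f, hinj, hf⟩ => ?_⟩
  have i0 : Fin k := ⟨0, by omega⟩
  set a : Fin k × Fin (3 - 1) := (⟨0, by omega⟩, ⟨0, by norm_num⟩) with ha
  set b : Fin k × Fin (3 - 1) := (⟨0, by omega⟩, ⟨1, by norm_num⟩) with hb
  set c : Fin k × Fin (3 - 1) := (⟨1, by omega⟩, ⟨0, by norm_num⟩) with hc
  set d : Fin k × Fin (3 - 1) := (⟨1, by omega⟩, ⟨1, by norm_num⟩) with hd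
  have h1 : (theta k 3).Adj (.inl false) (.inr a) := by
    rw [theta_adj_iff]; exact ⟨by simp, Or.inl (by simp [thetaRel, ha])⟩
  have h2 : (theta k 3).Adj (.inr a) (.inr b) := by
    rw [theta_adj_iff]; exact ⟨by simp [ha, hb], Or.inl (by simp [thetaRel, ha, hb])⟩
  have h3 : (theta k 3).Adj (.inr b) (.inl true) := by
    rw [theta_adj_iff]; exact ⟨by simp, Or.inl (by simp [thetaRel, hb])⟩
  have h4 : (theta k 3).Adj (.inl false) (.inr c) := by
    rw [theta_adj_iff]; exact ⟨by simp, Or.inl (by simp [thetaRel, hc])⟩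
  have h5 : (theta k 3).Adj (.inr c) (.inr d) := by
    rw [theta_adj_iff]; exact ⟨by simp [hc, hd], Or.inl (by simp [thetaRel, hc, hd])⟩
  have h6 : (theta k 3).Adj (.inr d) (.inl true) := by
    rw [theta_adj_iff]; exact ⟨by simp, Or.inl (by simp [thetaRel, hd])⟩
  have e1 := gad_adj_iff (hf _ _ h1)
  have e2 := gad_adj_iff (hf _ _ h2)
  have e3 := gad_adj_iff (hf _ _ h3)
  have e4 := gad_adj_iff (hf _ _ h4)
  have e5 := gad_adj_iff (hf _ _ h5)
  have e6 := gad_adj_iff (hf _ _ h6)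
  have ne : ∀ x y : Bool ⊕ (Fin k × Fin (3 - 1)), x ≠ y → ((f x : Fin n) : ℕ) ≠ (f y : Fin n) :=
    fun x y hxy h => hxy (hinj (Fin.ext h))
  by_cases hu : ((f (.inl false) : Fin n) : ℕ) ≤ 1
  · have n1 := ne (.inl false) (.inr b) (by simp)
    have n2 := ne (.inl false) (.inr d) (by simp)
    have n3 := ne (.inr b) (.inr d) (by simp [hb, hd])
    omega
  · have n1 := ne (.inr a) (.inl true) (by simp)
    have n2 := ne (.inr c) (.inl true) (by simp)
    have n3 := ne (.inr a) (.inr c) (by simp [ha, hc])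
    omega

theorem condH_gad : CondH gad pp 3 := by
  intro k hk
  rcases Nat.lt_or_ge k 2 with h | h
  · have : k = 1 := by omega
    subst this
    refine ⟨_, fun n => sp_le (theta 1 3) theta_one_adj ?_ n⟩
    rw [theta_one_edges]
    simp
  · refine ⟨0, fun n => ?_⟩
    unfold sp
    rw [emb_theta_zero h]
    simp

/-! ### paths -/

theorem paths_le {n : ℕ} (u v : Fin n) : paths (gad n) 2 u v ≤
    if (u : ℕ) < tt n + 3 ∧ (v : ℕ) < tt n + 3 then tt n + 3 else 0 := by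
  unfold paths
  split_ifs with h
  · have : Nat.card {x : Fin (2 + 1) → Fin n // Function.Injective x ∧ x 0 = u ∧ x (Fin.last 2) = v ∧
        ∀ i : Fin 2, (gad n).Adj (x i.castSucc) (x i.succ)} ≤ Nat.card (Fin (tt n + 3)) := by
      refine Nat.card_le_card_of_injective
        (fun x => (⟨(x.1 1 : ℕ), (gad_adj (x.2.2.2.2 0)).2.2⟩ : Fin (tt n + 3))) ?_
      intro x y hxy
      apply Subtype.ext
      funext i
      simp only [Fin.mk.injEq] at hxy
      fin_cases i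
      · exact x.2.2.1.trans y.2.2.1.symm
      · exact Fin.ext hxy
      · exact x.2.2.2.1.trans y.2.2.2.1.symm
    simpa using this
  · rw [Nat.le_zero, Nat.card_eq_zero]
    left
    refine ⟨fun ⟨x, _, h0, h2, ha⟩ => h ?_⟩
    have a0 := (gad_adj (ha 0)).2.1
    have a1 := (gad_adj (ha 1)).2.2
    constructor
    · rw [← h0]; exact a0
    · rw [← h2]; exact a1

theorem card_small (n m : ℕ) : (univ.filter fun u : Fin n => (u : ℕ) < m).card ≤ m := by
  have : ((univ.filter fun u : Fin n => (u : ℕ) < m).image fun u : Fin n => (u : ℕ)).card ≤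
      (range m).card := by
    refine card_le_card fun x hx => ?_
    simp only [mem_image, mem_filter, mem_univ, true_and] at hx
    obtain ⟨u, hu, rfl⟩ := hx
    exact mem_range.2 hu
  rwa [card_image_of_injective _ Fin.val_injective, card_range] at this

theorem condB_gad : CondB gad pp 3 := by
  classical
  refine ⟨256, fun n => ?_⟩
  rcases Nat.eq_zero_or_pos n with rfl | hn
  · simp
  have ht : (1 : ℝ) ≤ t1 n := by exact_mod_cast one_le_t1 n
  have hT : ((tt n + 3 : ℕ) : ℝ) ≤ 4 * t1 n := by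
    have h2 : tt n + 3 ≤ 4 * t1 n := by
      have := tt_le_t1 n
      have := one_le_t1 n
      omega
    exact_mod_cast h2
  set m := tt n + 3 with hm
  have h1 : ∑ u : Fin n, ∑ v ∈ univ.filter (fun v => v ≠ u), (paths (gad n) (3 - 1) u v : ℝ) ^ 2 ≤
      ∑ u ∈ univ.filter (fun u : Fin n => (u : ℕ) < m), ∑ v ∈ univ.filter (fun v : Fin n => (v : ℕ) < m),
        (m : ℝ) ^ 2 := by
    have h2 : ∀ u v : Fin n, (paths (gad n) (3 - 1) u v : ℝ) ^ 2 ≤
        if (u : ℕ) < m then (if (v : ℕ) < m then (m : ℝ) ^ 2 else 0) else 0 := by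
      intro u v
      have h := paths_le u v
      rw [← hm] at h
      by_cases hu : (u : ℕ) < m <;> by_cases hv : (v : ℕ) < m <;> simp only [hu, hv, and_self,
        and_false, false_and, and_true, true_and, if_true, if_false] at h ⊢
      · exact pow_le_pow_left₀ (by positivity) (by exact_mod_cast h) 2
      all_goals
        have : paths (gad n) (3 - 1) u v = 0 := Nat.le_zero.1 h
        rw [this]; simp
    calc ∑ u : Fin n, ∑ v ∈ univ.filter (fun v => v ≠ u), (paths (gad n) (3 - 1) u v : ℝ) ^ 2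
        ≤ ∑ u : Fin n, ∑ v : Fin n, (paths (gad n) (3 - 1) u v : ℝ) ^ 2 :=
          sum_le_sum fun u _ => sum_le_sum_of_subset_of_nonneg (filter_subset _ _)
            fun _ _ _ => by positivity
      _ ≤ ∑ u : Fin n, ∑ v : Fin n,
          if (u : ℕ) < m then (if (v : ℕ) < m then (m : ℝ) ^ 2 else 0) else 0 :=
          sum_le_sum fun u _ => sum_le_sum fun v _ => h2 u v
      _ = _ := by
          rw [sum_filter]
          refine sum_congr rfl fun u _ => ?_
          by_cases hu : (u : ℕ) < m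
          · simp only [hu, if_true]
            rw [sum_filter]
          · simp [hu]
  refine h1.trans ?_
  rw [sum_const, sum_const, nsmul_eq_mul, nsmul_eq_mul]
  have hc : ((univ.filter fun u : Fin n => (u : ℕ) < m).card : ℝ) ≤ m := by
    exact_mod_cast card_small n m
  have h3 : ((univ.filter fun u : Fin n => (u : ℕ) < m).card : ℝ) *
      (((univ.filter fun u : Fin n => (u : ℕ) < m).card : ℝ) * (m : ℝ) ^ 2) ≤ (m : ℝ) ^ 4 := by
    calc _ ≤ (m : ℝ) * ((m : ℝ) * (m : ℝ) ^ 2) := by gcongr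
      _ = (m : ℝ) ^ 4 := by ring
  refine h3.trans ?_
  have hn4 : ((t1 n : ℝ)) ^ 4 ≤ n := by exact_mod_cast t1_pow hn
  have h4 : (t1 n : ℝ) ≤ (n : ℝ) * pp n := by
    unfold pp
    rw [← div_eq_mul_inv, le_div_iff₀ (by positivity)]
    calc (t1 n : ℝ) * (t1 n : ℝ) ^ 3 = (t1 n : ℝ) ^ 4 := by ring
      _ ≤ (n : ℝ) := hn4
  calc (m : ℝ) ^ 4 ≤ (4 * t1 n) ^ 4 := pow_le_pow_left₀ (by positivity) hT 4
    _ = 256 * (t1 n : ℝ) ^ 4 := by ring
    _ ≤ 256 * ((n : ℝ) * pp n) ^ 4 := by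
        refine mul_le_mul_of_nonneg_left (pow_le_pow_left₀ (by positivity) h4 4) (by norm_num)
    _ = 256 * ((n : ℝ) ^ (2 * 3 - 2) * pp n ^ (2 * 3 - 2)) := by norm_num [mul_pow]

theorem paths_ge {n : ℕ} (hn : 4 ≤ n) (ht : tt n + 3 ≤ n) :
    tt n ≤ paths (gad n) 3 ⟨2, by omega⟩ ⟨1, by omega⟩ := by
  unfold paths
  have h : Nat.card (Fin (tt n)) ≤ Nat.card {x : Fin (3 + 1) → Fin n // Function.Injective x ∧
      x 0 = ⟨2, by omega⟩ ∧ x (Fin.last 3) = ⟨1, by omega⟩ ∧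
        ∀ i : Fin 3, (gad n).Adj (x i.castSucc) (x i.succ)} := by
    haveI : Finite {x : Fin (3 + 1) → Fin n // Function.Injective x ∧
      x 0 = ⟨2, by omega⟩ ∧ x (Fin.last 3) = ⟨1, by omega⟩ ∧
        ∀ i : Fin 3, (gad n).Adj (x i.castSucc) (x i.succ)} := inferInstance
    refine Nat.card_le_card_of_injective
      (fun i : Fin (tt n) => ⟨![⟨2, by omega⟩, ⟨0, by omega⟩, ⟨3 + i, by omega⟩, ⟨1, by omega⟩], ?_, rfl, rfl, ?_⟩) ?_
    · intro a b hab
      fin_cases a <;> fin_cases b <;> simp at hab ⊢ <;> omega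
    · intro j
      have hi := i.2
      fin_cases j
      · show (gad n).Adj ⟨2, _⟩ ⟨0, _⟩
        rw [gad, SimpleGraph.fromRel_adj]
        simp
      · show (gad n).Adj ⟨0, _⟩ ⟨3 + i, _⟩
        rw [gad, SimpleGraph.fromRel_adj]
        simp
        omega
      · show (gad n).Adj ⟨3 + i, _⟩ ⟨1, _⟩
        rw [gad, SimpleGraph.fromRel_adj]
        simp
        omega
    · intro i j hij
      have := congrFun (congrArg Subtype.val hij) 2
      simp at this
      exact Fin.ext this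
  simpa using h

/-- the arithmetic -/
theorem arithD {x n : ℝ} (hx : 0 < x) (hn0 : 0 ≤ n) (hn : n ≤ 16 * x ^ 4) :
    n ^ 12 * (((x ^ 3)⁻¹) ^ 15) ≤ (16 : ℝ) ^ 12 * x ^ 3 := by
  have e : ((x ^ 3)⁻¹) ^ 15 = (x ^ 45)⁻¹ := by
    rw [inv_pow, ← pow_mul]
  rw [e, ← div_eq_mul_inv, div_le_iff₀ (pow_pos hx 45)]
  calc n ^ 12 ≤ (16 * x ^ 4) ^ 12 := pow_le_pow_left₀ hn0 hn 12
    _ = (16 : ℝ) ^ 12 * x ^ 3 * x ^ 45 := by
        rw [mul_pow, ← pow_mul, mul_assoc, ← pow_add]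

theorem arithE {x K : ℝ} (hx : 1 < x) (hK : K < x) (h : x ^ 5 ≤ K * x ^ 3) : False := by
  have h3 : 0 < x ^ 3 := by positivity
  have h6 : x ^ 3 * (x * x) ≤ x ^ 3 * K := by
    calc x ^ 3 * (x * x) = x ^ 5 := by ring
      _ ≤ K * x ^ 3 := h
      _ = x ^ 3 * K := by ring
  have h7 : x * x ≤ K := le_of_mul_le_mul_left h6 h3
  nlinarith

/-- one term of the double sum -/
theorem single_le {n : ℕ} (f : Fin n → Fin n → ℝ) (hf : ∀ u v, 0 ≤ f u v) (u0 v0 : Fin n)
    (h : v0 ≠ u0) : f u0 v0 ≤ ∑ u : Fin n, ∑ v ∈ univ.filter (fun v => v ≠ u), f u v := by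
  have h1 : f u0 v0 ≤ ∑ v ∈ univ.filter (fun v => v ≠ u0), f u0 v :=
    single_le_sum (f := fun v => f u0 v) (fun v _ => hf u0 v) (by simp [h])
  have h2 : (∑ v ∈ univ.filter (fun v => v ≠ u0), f u0 v) ≤
      ∑ u : Fin n, ∑ v ∈ univ.filter (fun v => v ≠ u), f u v :=
    single_le_sum (f := fun u => ∑ v ∈ univ.filter (fun v => v ≠ u), f u v)
      (fun u _ => sum_nonneg fun v _ => hf u v) (mem_univ u0)
  exact h1.trans h2

theorem not_condD_gad : ¬ CondD gad pp 3 := by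
  intro h
  obtain ⟨M, hM⟩ := h 5 (by norm_num)
  obtain ⟨K, hK⟩ : ∃ K : ℝ, K = (16 : ℝ) ^ 12 := ⟨_, rfl⟩
  have hK0 : 0 ≤ K := by rw [hK]; positivity
  have hev : ∀ᶠ n : ℕ in atTop, 4 ≤ n ∧ max 1 (|M| * K) < (tt n : ℝ) := by
    refine (eventually_ge_atTop 4).and ?_
    have := (tendsto_natCast_atTop_atTop (R := ℝ)).comp tt_tendsto
    exact this.eventually_gt_atTop _
  obtain ⟨n, hn, htn⟩ := hev.exists
  have ht1 : (1 : ℝ) < tt n := lt_of_le_of_lt (le_max_left _ _) htn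
  have htM : |M| * K < tt n := lt_of_le_of_lt (le_max_right _ _) htn
  have ht1' : 1 < tt n := by exact_mod_cast ht1
  have hte : t1 n = tt n := max_eq_left ht1'.le
  have h16 : tt n + 3 ≤ n := by
    have := tt_pow n
    have h2 : tt n * 8 ≤ tt n ^ 4 := by
      calc tt n * 8 = tt n * 2 ^ 3 := by norm_num
        _ ≤ tt n * tt n ^ 3 := Nat.mul_le_mul_left _ (Nat.pow_le_pow_left ht1' 3)
        _ = tt n ^ 4 := by ring
    omega
  have h1 := hM n
  have h2 : ((tt n : ℕ) : ℝ) ^ 5 ≤ ∑ u : Fin n, ∑ v ∈ univ.filter (fun v => v ≠ u),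
      (paths (gad n) 3 u v : ℝ) ^ 5 := by
    have ha : ((tt n : ℕ) : ℝ) ^ 5 ≤ (paths (gad n) 3 ⟨2, by omega⟩ ⟨1, by omega⟩ : ℝ) ^ 5 :=
      pow_le_pow_left₀ (by positivity) (by exact_mod_cast paths_ge hn h16) 5
    refine ha.trans ?_
    exact single_le (fun u v => (paths (gad n) 3 u v : ℝ) ^ 5) (fun _ _ => by positivity)
      ⟨2, by omega⟩ ⟨1, by omega⟩ (by simp)
  have h3 := h2.trans h1
  have hn16 : (n : ℝ) ≤ 16 * (tt n : ℝ) ^ 4 := by
    have := le_t1 n
    rw [hte] at this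
    exact_mod_cast this
  have h4 : (n : ℝ) ^ 12 * pp n ^ 15 ≤ K * (tt n : ℝ) ^ 3 := by
    have := arithD (x := (tt n : ℝ)) (n := (n : ℝ)) (by linarith) (by positivity) hn16
    rw [hK]
    unfold pp
    rw [hte]
    exact this
  have e12 : (n : ℝ) ^ (2 + 5 * (3 - 1)) * pp n ^ (5 * 3) = (n : ℝ) ^ 12 * pp n ^ 15 := rfl
  rw [e12] at h3
  have hp := pp_pos n
  refine arithE ht1 htM ?_
  calc (tt n : ℝ) ^ 5 ≤ M * ((n : ℝ) ^ 12 * pp n ^ 15) := h3
    _ ≤ |M| * ((n : ℝ) ^ 12 * pp n ^ 15) :=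
        mul_le_mul_of_nonneg_right (le_abs_self M) (by positivity)
    _ ≤ |M| * (K * (tt n : ℝ) ^ 3) := mul_le_mul_of_nonneg_left h4 (abs_nonneg M)
    _ = |M| * K * (tt n : ℝ) ^ 3 := by ring

end Pool.Agent.Q332.TM
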